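import Pool.Agent.Work.MP_4eb3f9_an_helper6.Final

/-!
# MP_4eb3f9_an, Q1: the answer is no

The definitions used by the statement are in `Pool/Agent/Work/MP_4eb3f9_an/Defs.lean`.
-/

namespace Pool.Agent.Results.MP_4eb3f9_an.NoSolution

/-- No function `u` in Cegrell's class `F` of the bidisc has `(dd^c u)² = λ ⊗ δ₀`, where `λ` is
Lebesgue measure on the unit disc and `δ₀` the Dirac mass at the origin. -/
theorem result : ¬ ∃ u : ℂ × ℂ → EReal, CMA.InFWithMA u CMA.lebDirac :=
  CMA.no_solution

end Pool.Agent.Results.MP_4eb3f9_an.NoSolution
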